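import Pool.Agent.Lib.MP_12eaff_co.G.Ifc

set_option autoImplicit false
set_option linter.unusedSectionVars false

namespace Pool.Agent.Lib.MP_12eaff_co.Acc2

open Finset Pool.Agent.Lib.MP_12eaff_co.BK
open scoped Classical

/-- The account without tickets: a unique port costs one, a passage child gives `B`, every parent
of passage children takes `c` back, a late vertex with a virtual event and a port gives two. -/
def UThm7 (D B c : ℕ) : Prop :=
  ∀ (V : Type) [Fintype V] (G : SimpleGraph V) (U P : Finset V), MC G D →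
    (∀ v, v ∈ U ↔ ∃ K, IsClq G K ∧ K.card = D ∧ v ∈ K) →
    ∃ (ι : Type) (mb : ι → PV V → Prop) (cl : PV V → ι)
      (E : PV V × PV V × (PV V → ℕ) → ℕ → PV V × PV V × (PV V → ℕ) → ℕ → PV V → Prop)
      (pf : PV V → PV V → ℕ), (∀ u, mb (cl u) u) ∧
      ∀ (T : Tr (PG G U P) D) (q : ι → PV V), IsB T → T.Dm = PD U P → T.S2 = ∅ →
        Own T mb cl q (T.El E) pf → T.NoTix →
          B * ∑ e ∈ T.R, (T.CX e).card + 2 * ((T.Late mb cl q (T.El E)).filter fun e =>
            T.Vev e ∧ ∃ m ∈ T.Dm, (PG G U P).Adj e m).card <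
            ∑ v ∈ T.R, (T.Dr v ∩ T.Dm).card + c * (T.R.filter fun e => T.CX e ≠ ∅).card

end Pool.Agent.Lib.MP_12eaff_co.Acc2
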