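import Pool.Agent.Lib.MP_12eaff_co.G.M1

set_option autoImplicit false
set_option linter.unusedSectionVars false

namespace Pool.Agent.Lib.MP_12eaff_co.Acc2

open Finset
open scoped Classical

namespace Fr

variable {V : Type} [Fintype V] {X : Fr V} {D : ℕ} {f : V → ℕ} {a b k l : ℕ} {h w : V}

/-- All ports of rooted members that can be pinned. -/
noncomputable def pn0 (X : Fr V) (f σ : V → ℕ) (R : Finset V) : Finset (V × V) :=
  univ.filter fun p => p.2 ∈ R ∧ p.1 ∈ X.sl p.2 ∧ f p.1 ≠ σ p.2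

theorem mem_pn0 {σ : V → ℕ} {R : Finset V} {z m : V} :
    (z, m) ∈ X.pn0 f σ R ↔ m ∈ R ∧ z ∈ X.sl m ∧ f z ≠ σ m := by simp [pn0]

theorem split2 {A B : Finset V} {t : ℕ} (a : t ≤ A.card) (b : t ≤ B.card)
    (c : 2 * t ≤ (A ∪ B).card) : ∃ T ⊆ A, t ≤ T.card ∧ (A ∪ B) \ T ⊆ B ∧ t ≤ ((A ∪ B) \ T).card := by
  obtain ⟨T, t1, t2, t3⟩ := exists_subsuperset_card_eq (sdiff_subset : A \ B ⊆ A)
    (le_max_left _ t) (max_le (card_le_card sdiff_subset) a)
  refine ⟨T, t2, by omega, fun x k => (mem_union.1 (mem_sdiff.1 k).1).elim (fun j => by_contra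
    fun n => (mem_sdiff.1 k).2 (t1 (mem_sdiff.2 ⟨j, n⟩))) id, ?_⟩
  have := card_sdiff_add_card_eq_card (t2.trans (subset_union_left (s₂ := B)))
  have := card_sdiff_add_card A B
  omega

theorem rootP (ok : X.OKz) (la : a < D) (lb : b < D) (ab : a ≠ b)
    (p : l = 2 ∧ k = 5 ∨ l = 5 ∧ k = 4 ∨ l = 6 ∧ k = 3 ∨ l = 7 ∧ k = 2)
    (ck : (X.Nb f a b).card = k) (ca : (if k = 5 then 2 else 1) ≤ (X.Na f a).card)
    (cb : (if k = 5 then 2 else 1) ≤ (X.Na f b).card) :
    ∃ c d, c.l = l ∧ X.Wz D c d f ∧ X.Rz c d := by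
  have e : X.Na f a ∪ X.Na f b = X.Nb f a b := by
    ext m
    rw [mem_union, mem_Na, mem_Na, mem_Nb]
    tauto
  obtain ⟨T, t1, t2, t3, t4⟩ := split2 ca cb (by rw [e, ck]; split_ifs <;> omega)
  rw [e] at t3 t4
  set R := X.Nb f a b with hR
  have TR : T ⊆ R := t1.trans (Na_Nb a b)
  have RF : R ⊆ X.F := filter_subset _ _
  have cT := card_sdiff_add_card_eq_card TR
  have cF := card_sdiff_add_card_eq_card RF
  have cn := ok.card
  obtain ⟨Q, q1, q2, q3⟩ : ∃ Q ⊆ X.F \ R, (2 ≤ T.card ∧ 3 ≤ k ∨ 4 ≤ Q.card) ∧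
      (2 ≤ (R \ T).card ∧ 3 ≤ k ∨ 4 ≤ ((X.F \ R) \ Q).card) := by
    by_cases i : 2 ≤ T.card ∧ 3 ≤ k
    · exact ⟨∅, empty_subset _, .inl i, .inr (by rw [sdiff_empty]; omega)⟩
    by_cases j : 2 ≤ (R \ T).card ∧ 3 ≤ k
    · exact ⟨_, Subset.rfl, .inr (by omega), .inl j⟩
    obtain ⟨Q, q1, q2⟩ := exists_subset_card_eq (show 4 ≤ (X.F \ R).card by omega)
    have := card_sdiff_add_card_eq_card q1
    exact ⟨Q, q1, .inr q2.ge, .inr (by omega)⟩
  let σ : V → ℕ := fun m => if m ∈ T ∪ Q then a else b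
  have sa : ∀ m, σ m = a ↔ m ∈ T ∪ Q := fun m => by
    simp only [σ]; split_ifs with j <;> simp [j, ab.symm]
  have sb : ∀ m, σ m = b ↔ m ∉ T ∪ Q := fun m => by
    simp only [σ]; split_ifs with j <;> simp [j, ab]
  have nQ : ∀ m ∈ R, m ∉ Q := fun m i j => (mem_sdiff.1 (q1 j)).2 i
  have Ta : T ⊆ R.filter fun m => σ m = a := fun m i =>
    mem_filter.2 ⟨TR i, (sa m).2 (mem_union_left _ i)⟩
  have Tb : R \ T ⊆ R.filter fun m => σ m = b := fun m i =>
    mem_filter.2 ⟨(mem_sdiff.1 i).1, (sb m).2 fun j =>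
      (mem_union.1 j).elim (mem_sdiff.1 i).2 (nQ m (mem_sdiff.1 i).1)⟩
  have both : ∀ u ∈ X.F \ R, X.See f u a ∧ X.See f u b := fun u i =>
    not_not.1 fun j => (mem_sdiff.1 i).2 (mem_Nb.2 ⟨(mem_sdiff.1 i).1, j⟩)
  have pk : ∀ k', Sd.P (V := V) ⟨l, a, b, σ, X.F⟩ k' → k' = k := fun k' j => by
    simp only [Sd.P] at j; omega
  have w0 := (card_pos.1 (show 0 < X.F.card by omega)).choose
  refine ⟨⟨l, a, b, σ, X.F⟩, ⟨R, w0, w0, X.pn0 f σ R⟩, rfl, ⟨by dsimp only; omega,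
    fun _ => ⟨la, lb⟩, RF, Subset.rfl, fun z m j => mem_pn0.1 j, fun m => ?_,
    fun j => by dsimp only at j; omega, fun j => by dsimp only at j; omega, fun _ => rfl,
    fun j => by simp only [Sd.S] at j; omega, fun k' j => ?_, fun _ u i => .inl (both u i),
    fun j => by dsimp only at j; omega, fun j => by dsimp only at j; omega, fun _ y ly n n' => ?_,
    fun j => by dsimp only at j; omega⟩, fun k' j κ i => ?_⟩
  · simp only [σ]; split_ifs <;> simp
  · obtain rfl := pk k' j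
    refine ⟨ab, ck, fun m i z s => mem_pn0.2 ⟨i, s, fun r => ?_⟩, fun κ i => ?_⟩
    · by_cases t : m ∈ T
      · exact (mem_Na.1 (t1 t)).2 ⟨z, s, r.trans ((sa m).2 (mem_union_left _ t))⟩
      · exact (mem_Na.1 (t3 (mem_sdiff.2 ⟨i, t⟩))).2
          ⟨z, s, r.trans (mem_filter.1 (Tb (mem_sdiff.2 ⟨i, t⟩))).2⟩
    · rcases i with rfl | rfl
      exacts [t2.trans (card_le_card Ta), t4.trans (card_le_card Tb)]
  · refine le_trans (by omega) (card_le_card (s := X.F \ R) fun u i => mem_Ns.2 ⟨i, fun r => ?_⟩)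
    exact (ok.see3 (mem_sdiff.1 i).1 (both u i).1 (both u i).2 r ab).elim n n'
  · obtain rfl := pk k' j
    rcases i with rfl | rfl
    · exact q2.imp (fun t => ⟨t.1.trans (card_le_card Ta), t.2⟩) fun t => t.trans (card_le_card
        fun m i => mem_filter.2 ⟨q1 i, (sa m).2 (mem_union_right _ i)⟩)
    · exact q3.imp (fun t => ⟨t.1.trans (card_le_card Tb), t.2⟩) fun t => t.trans (card_le_card
        fun m i => mem_filter.2 ⟨(mem_sdiff.1 i).1, (sb m).2 fun j => (mem_union.1 j).elim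
          (fun r => (mem_sdiff.1 (mem_sdiff.1 i).1).2 (TR r)) (mem_sdiff.1 i).2⟩)

theorem rootS (la : a < D) (p : l = 1 ∨ l = 3 ∨ l = 4) (hF : h ∈ X.F) (wF : w ∈ X.F)
    (hw : h ≠ w) (h1 : ¬ X.See f h a) (w1 : ¬ X.Mono f w a) (w2 : l = 1 → ¬ X.See f w a)
    (s : ∀ u ∈ X.F \ {h, w}, X.See f u a) (mo : l = 4 → ∀ u ∈ X.F \ {h, w}, X.Mono f u a)
    (g1 : ∀ y < D, y ≠ a → 4 ≤ (X.Ns {h, w} f y).card)
    (g2 : l = 3 → ∃ u ∈ X.F \ {h, w}, ¬ X.Mono f u a) :
    ∃ c d, c.l = l ∧ X.Wz D c d f ∧ X.Rz c d := by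
  have RF : ({h, w} : Finset V) ⊆ X.F := insert_subset hF (singleton_subset_iff.2 wF)
  refine ⟨⟨l, a, a, fun _ => a, if l = 4 then X.F else {h, w}⟩,
    ⟨{h, w}, h, w, X.pn0 f (fun _ => a) {h, w}⟩, rfl, ⟨by dsimp only; omega,
    fun _ => ⟨la, la⟩, ?_, ?_, fun z m j => mem_pn0.1 j, fun m => .inl rfl,
    fun j => by dsimp only at j; omega, fun j => if_neg (by dsimp only at j; omega),
    fun j => if_pos (by dsimp only at j; omega),
    fun _ => ⟨rfl, rfl, hw, fun z i => mem_pn0.2 ⟨by simp, i, fun r => h1 ⟨z, i, r⟩⟩, ?_,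
      fun j z i => mem_pn0.2 ⟨by simp, i, fun r => w2 j ⟨z, i, r⟩⟩⟩,
    fun k j => by simp only [Sd.P] at j; omega, fun _ u i => .inl ⟨s u i, s u i⟩,
    fun j u i => .inl (mo j u i), fun j => by dsimp only at j; omega, fun _ y ly n _ => g1 y ly n,
    g2⟩, fun k j => by simp only [Sd.P] at j; omega⟩
  · dsimp only; split_ifs; exacts [RF, Subset.rfl]
  · dsimp only; split_ifs; exacts [Subset.rfl, RF]
  · refine or_iff_not_imp_left.2 fun n => ?_
    obtain ⟨x, x1, y, y1, xy⟩ := one_lt_card.1 (show 1 < (X.sl w).card by dsimp only at n; omega)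
    by_cases e : f x = a
    · exact ⟨y, mem_pn0.2 ⟨by simp, y1, fun r => w1 ⟨x, x1, y, y1, xy, e, r⟩⟩⟩
    · exact ⟨x, mem_pn0.2 ⟨by simp, x1, e⟩⟩

theorem root_z (ok : X.OKz) (v : X.Vz D f) :
    ∃ c d, c.l = X.lev D f ∧ X.Wz D c d f ∧ X.Rz c d := by
  have n := lev_spec (X := X) (D := D) (f := f)
  have t := gl_of_le (le_refl (X.lev D f))
  have l7 : X.lev D f ≤ 7 := lev_le fun j => j
  have cn := ok.card
  have nA : ∀ i, ¬ X.GA D f i → ∀ y < D, i < (X.Na f y).card := fun i j y l =>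
    not_le.1 fun r => j ⟨y, l, r⟩
  have nN : ∀ i, ¬ X.GN D f i → ∀ y < D, ∀ z < D, y ≠ z → i < (X.Nb f y z).card :=
    fun i j y l z l' e => not_le.1 fun r => j ⟨y, l, z, l', e, r⟩
  have one : ∀ a < D, (X.Na f a).card ≤ 1 → ∃ h, X.Na f a = {h} := fun a l j =>
    card_eq_one.1 (le_antisymm j (v.nA a l))
  have oth : ∀ a h w, X.Na f a ⊆ {h, w} → ∀ u ∈ X.F \ {h, w}, X.See f u a := fun a h w j u i =>
    not_not.1 fun r => (mem_sdiff.1 i).2 (j (mem_Na.2 ⟨(mem_sdiff.1 i).1, r⟩))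
  have cov : ∀ a y h w, ∀ R ⊆ ({h, w} : Finset V), X.Na f a ⊆ {h, w} →
      (∀ m ∈ X.Nb f y a, m ∈ ({h, w} : Finset V) → m ∈ R) →
      (X.Nb f y a).card ≤ R.card + (X.Ns {h, w} f y).card := fun a y h w R _ j r =>
    (card_le_card fun m i => by
      by_cases e : m ∈ ({h, w} : Finset V)
      · exact mem_union_left _ (r m i e)
      · have mF := mem_sdiff.2 ⟨(mem_Nb.1 i).1, e⟩
        exact mem_union_right _ (mem_Ns.2 ⟨mF, fun s =>
          (mem_Nb.1 i).2 ⟨s, oth a h w j m mF⟩⟩)).trans (card_union_le _ _)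
  generalize X.lev D f = l at n t l7
  interval_cases l
  · have w0 := (card_pos.1 (show 0 < X.F.card by omega)).choose
    exact ⟨⟨0, 0, 0, fun _ => 0, ∅⟩, ⟨∅, w0, w0, ∅⟩, rfl, ⟨by simp, by simp, by simp, by simp,
      by simp, by simp, by simp, by simp, by simp, by simp [Sd.S], by simp [Sd.P], by simp,
      by simp, fun _ => n, by simp, by simp⟩, by simp [Rz, Sd.P]⟩
  · obtain ⟨n1, n2⟩ := not_or.1 n
    obtain ⟨a, la, t⟩ := t.resolve_right n1
    obtain ⟨h, w, hw, e⟩ := card_eq_two.1 (le_antisymm t (nA 1 n2 a la))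
    have h1 := mem_Na.1 (e ▸ mem_insert_self h {w} : h ∈ X.Na f a)
    have w1 := mem_Na.1 (e ▸ mem_insert_of_mem (mem_singleton_self w) : w ∈ X.Na f a)
    refine rootS la (.inl rfl) h1.1 w1.1 hw h1.2 (fun r => w1.2 r.see) (fun _ => w1.2)
      (oth a h w e.le) (by omega) (fun y ly ne => ?_) (by omega)
    have := cov a y h w _ Subset.rfl e.le fun _ _ => id
    have := nN 5 n1 y ly a la ne
    rw [card_pair hw] at *
    omega
  · obtain ⟨n1, n2⟩ := not_or.1 n
    obtain ⟨a, la, b, lb, ab, t⟩ := t.resolve_right n1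
    exact rootP ok la lb ab (k := 5) (by omega) (le_antisymm t (nN 4 n2 a la b lb ab))
      (nA 1 n1 a la) (nA 1 n1 b lb)
  · obtain ⟨n1, n2⟩ := not_or.1 n
    obtain ⟨a, la, t⟩ := t.resolve_right n2
    obtain ⟨h, e⟩ := one a la t
    have h1 := mem_Na.1 (e ▸ mem_singleton_self h : h ∈ X.Na f a)
    have m3 : 3 ≤ (X.Nm f a).card := not_le.1 fun r => n1 ⟨a, la, t, r⟩
    have sb : ∀ w, X.Na f a ⊆ {h, w} := fun w => e ▸ singleton_subset_iff.2 (mem_insert_self _ _)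
    obtain ⟨w, wF, hw, w1, g1⟩ : ∃ w ∈ X.F, h ≠ w ∧ ¬ X.Mono f w a ∧
        ∀ y < D, y ≠ a → 4 ≤ (X.Ns {h, w} f y).card := by
      have six : ∀ w y, 6 ≤ (X.Nb f y a).card → 4 ≤ (X.Ns {h, w} f y).card := fun w y j => by
        have := cov a y h w _ Subset.rfl (sb w) fun _ _ => id
        have : ({h, w} : Finset V).card ≤ 2 := card_le_two
        omega
      by_cases i : ∃ y < D, y ≠ a ∧ (X.Nb f y a).card ≤ 5
      · obtain ⟨γ, lγ, ne, i⟩ := i
        obtain ⟨w, wF, w1⟩ := exists_mem_notMem_of_card_lt_card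
          (show (X.Nb f γ a).card < X.F.card by omega)
        have w2 := not_not.1 fun r => w1 (mem_Nb.2 ⟨wF, r⟩)
        refine ⟨w, wF, fun j => h1.2 (j ▸ w2.2), fun r => ne (ok.mono1 wF r w2.1),
          fun y ly ny => ?_⟩
        by_cases j : y = γ
        · subst j
          have := cov a y h w {h} (by simp) (sb w) fun m p q => by
            rcases mem_insert.1 q with rfl | q
            exacts [mem_singleton_self _, absurd (mem_singleton.1 q ▸ p) w1]
          have := nN 4 n2 y ly a la ny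
          rw [card_singleton] at *
          omega
        · refine six w y ?_
          have := card_le_card (s := X.F) (t := X.Nb f y a ∪ X.Nb f γ a) fun m p => by
            rw [mem_union, mem_Nb, mem_Nb]
            by_contra! r
            exact (ok.see3 p (r.1 p).1 (r.2 p).1 (r.1 p).2 j).elim ny.symm ne.symm
          have := card_union_le (X.Nb f y a) (X.Nb f γ a)
          omega
      · obtain ⟨w, w1, w2⟩ := exists_mem_notMem_of_card_lt_card
          (show ({h} : Finset V).card < (X.Nm f a).card by rw [card_singleton]; omega)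
        exact ⟨w, (mem_Nm.1 w1).1, fun j => w2 (j ▸ mem_singleton_self h), (mem_Nm.1 w1).2,
          fun y ly ny => six w y (not_le.1 fun r => i ⟨y, ly, ny, r⟩)⟩
    obtain ⟨u, u1, u2⟩ := exists_mem_notMem_of_card_lt_card
      (show ({h, w} : Finset V).card < (X.Nm f a).card by rw [card_pair hw]; omega)
    exact rootS la (by omega) h1.1 wF hw h1.2 w1 (by omega) (oth a h w (sb w)) (by omega) g1
      fun _ => ⟨u, mem_sdiff.2 ⟨(mem_Nm.1 u1).1, u2⟩, (mem_Nm.1 u1).2⟩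
  · obtain ⟨a, la, t, t'⟩ := t.resolve_right n
    obtain ⟨h, e⟩ := one a la t
    have h0 : h ∈ X.Na f a := e ▸ mem_singleton_self h
    have h1 := mem_Na.1 h0
    obtain ⟨w, w1, w2⟩ := exists_mem_notMem_of_card_lt_card
      (show ({h} : Finset V).card < (X.Nm f a).card by rw [card_singleton]; exact v.mo a la)
    have hw : h ≠ w := fun j => w2 (j ▸ mem_singleton_self h)
    have e' : {h, w} = X.Nm f a := eq_of_subset_of_card_le
      (insert_subset (Na_Nm a h0) (singleton_subset_iff.2 w1)) (by rwa [card_pair hw])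
    have mo : ∀ u ∈ X.F \ {h, w}, X.Mono f u a := fun u i =>
      not_not.1 fun r => (mem_sdiff.1 i).2 (e' ▸ mem_Nm.2 ⟨(mem_sdiff.1 i).1, r⟩)
    refine rootS la (by omega) h1.1 (mem_Nm.1 w1).1 hw h1.2 (mem_Nm.1 w1).2 (by omega)
      (fun u i => (mo u i).see) (fun _ => mo) (fun y ly ny => ?_) (by omega)
    have := card_le_card (s := X.F \ {h, w}) (t := X.Ns {h, w} f y) fun u i =>
      mem_Ns.2 ⟨i, fun r => ny (ok.mono1 (mem_sdiff.1 i).1 (mo u i) r)⟩
    have := le_card_sdiff {h, w} X.F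
    rw [card_pair hw] at this
    omega
  · obtain ⟨a, la, b, lb, ab, t⟩ := t
    exact rootP ok la lb ab (k := 4) (by omega) (le_antisymm t (nN 3 n a la b lb ab))
      (v.nA a la) (v.nA b lb)
  · obtain ⟨a, la, b, lb, ab, t⟩ := t
    exact rootP ok la lb ab (k := 3) (by omega) (le_antisymm t (nN 2 n a la b lb ab))
      (v.nA a la) (v.nA b lb)
  · obtain ⟨a, la, b, lb, ab, t⟩ := t
    exact rootP ok la lb ab (k := 2) (by omega) (le_antisymm t (v.nB a la b lb ab))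
      (v.nA a la) (v.nA b lb)

end Fr

end Pool.Agent.Lib.MP_12eaff_co.Acc2
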