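import Pool.Agent.Lib.MP_12eaff_co.F.L5
import Pool.Agent.Lib.MP_12eaff_co.F.L2
import Pool.Agent.Lib.MP_12eaff_co.F.L1

set_option autoImplicit false
set_option linter.unusedSectionVars false

namespace Pool.Agent.Lib.MP_12eaff_co.Acc2

open Finset
open scoped Classical

/-- Static data of one clique: level, the two frozen colours, the pin colour of every member, and
the members that may be pinned. -/
structure Sd (V : Type) where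
  l : ℕ
  α : ℕ
  β : ℕ
  σ : V → ℕ
  Mv : Finset V

/-- Moving data of one clique: rooted members, holder, second member, pinned ports (slot, member). -/
structure Dd (V : Type) where
  Rt : Finset V
  h : V
  w : V
  pn : Finset (V × V)

/-- One frozen colour. -/
def Sd.S {V : Type} (c : Sd V) : Prop := c.l = 1 ∨ c.l = 3 ∨ c.l = 4

/-- Two frozen colours, `k` rooted members. -/
def Sd.P {V : Type} (c : Sd V) (k : ℕ) : Prop :=
  c.l = 2 ∧ k = 5 ∨ c.l = 5 ∧ k = 4 ∨ c.l = 6 ∧ k = 3 ∨ c.l = 7 ∧ k = 2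

namespace Fr

variable {V : Type} [Fintype V] (X : Fr V) (D : ℕ)

structure OKz : Prop where
  card : 11 ≤ X.F.card
  two : ∀ w ∈ X.F, (X.sl w).card ≤ 2
  dis : ∀ w ∈ X.F, ∀ w' ∈ X.F, ∀ z, z ∈ X.sl w → z ∈ X.sl w' → w = w'

/-- Members that miss `y`. -/
noncomputable def Na (f : V → ℕ) (y : ℕ) : Finset V := X.F.filter fun w => ¬ X.See f w y

/-- Members that miss `y` or `z`. -/
noncomputable def Nb (f : V → ℕ) (y z : ℕ) : Finset V :=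
  X.F.filter fun w => ¬ (X.See f w y ∧ X.See f w z)

/-- Members that do not see `y` twice. -/
noncomputable def Nm (f : V → ℕ) (y : ℕ) : Finset V := X.F.filter fun w => ¬ X.Mono f w y

structure Vz (f : V → ℕ) : Prop where
  nA : ∀ y < D, 1 ≤ (X.Na f y).card
  nB : ∀ y < D, ∀ z < D, y ≠ z → 2 ≤ (X.Nb f y z).card
  mo : ∀ y < D, 2 ≤ (X.Nm f y).card

def GA (f : V → ℕ) (k : ℕ) : Prop := ∃ y < D, (X.Na f y).card ≤ k

def GN (f : V → ℕ) (k : ℕ) : Prop := ∃ y < D, ∃ z < D, y ≠ z ∧ (X.Nb f y z).card ≤ k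

def GM (f : V → ℕ) : Prop := ∃ y < D, (X.Na f y).card ≤ 1 ∧ (X.Nm f y).card ≤ 2

/-- The levels. -/
def Gl (f : V → ℕ) : ℕ → Prop
  | 0 => True
  | 1 => X.GA D f 2 ∨ X.GN D f 5
  | 2 => X.GN D f 5 ∨ X.GA D f 1
  | 3 => X.GA D f 1 ∨ X.GN D f 4
  | 4 => X.GM D f ∨ X.GN D f 4
  | 5 => X.GN D f 4
  | 6 => X.GN D f 3
  | 7 => X.GN D f 2
  | _ => False

theorem ex_lev (f : V → ℕ) : ∃ i, ¬ X.Gl D f (i + 1) := ⟨7, fun h => h⟩

noncomputable def lev (f : V → ℕ) : ℕ := Nat.find (X.ex_lev D f)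

/-- The member has an uncoloured slot. -/
def Hl (f : V → ℕ) (u : V) : Prop := ∃ z ∈ X.sl u, D ≤ f z

/-- All slots of the member are pinned. -/
def Full (d : Dd V) (m : V) : Prop := ∀ z ∈ X.sl m, (z, m) ∈ d.pn

/-- The guards. -/
structure Sft (c : Sd V) (d : Dd V) (f : V → ℕ) : Prop where
  s0 : c.l = 0 → ¬ X.Gl D f 1
  s1 : c.l ≠ 0 → ∀ y < D, y ≠ c.α → y ≠ c.β → 4 ≤ (X.Ns d.Rt f y).card
  s2 : c.l = 3 → ∃ u ∈ X.F \ d.Rt, ¬ X.Mono f u c.α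

/-- The invariant. -/
structure Wz (c : Sd V) (d : Dd V) (f : V → ℕ) : Prop where
  l7 : c.l ≤ 7
  la : c.l ≠ 0 → c.α < D ∧ c.β < D
  sub : d.Rt ⊆ c.Mv
  subF : c.Mv ⊆ X.F
  p1 : ∀ z m, (z, m) ∈ d.pn → m ∈ d.Rt ∧ z ∈ X.sl m ∧ f z ≠ c.σ m
  sg : ∀ m, c.σ m = c.α ∨ c.σ m = c.β
  r0 : c.l = 0 → c.Mv = ∅
  mv : c.l = 1 ∨ c.l = 3 → c.Mv = d.Rt
  mvF : ¬ (c.l = 0 ∨ c.l = 1 ∨ c.l = 3) → c.Mv = X.F
  S : c.S → c.β = c.α ∧ d.Rt = {d.h, d.w} ∧ d.h ≠ d.w ∧ X.Full d d.h ∧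
    ((X.sl d.w).card < 2 ∨ ∃ z, (z, d.w) ∈ d.pn) ∧ (c.l = 1 → X.Full d d.w)
  P : ∀ k, c.P k → c.α ≠ c.β ∧ d.Rt.card = k ∧ (∀ m ∈ d.Rt, X.Full d m) ∧
    ∀ κ, κ = c.α ∨ κ = c.β → (if k = 5 then 2 else 1) ≤ (d.Rt.filter fun m => c.σ m = κ).card
  see : c.l ≠ 0 → ∀ u ∈ X.F \ d.Rt, X.See f u c.α ∧ X.See f u c.β ∨ X.Hl D f u
  mo : c.l = 4 → ∀ u ∈ X.F \ d.Rt, X.Mono f u c.α ∨ X.Hl D f u
  soft : X.Sft D c d f

/-- The frozen part. -/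
structure Fz (c : Sd V) (d : Dd V) (f : V → ℕ) : Prop where
  see : c.l ≠ 0 → ∀ u ∈ X.F \ d.Rt, X.See f u c.α ∧ X.See f u c.β
  w : c.l = 3 ∨ c.l = 4 → X.See f d.w c.α
  mo : c.l = 4 → ∀ u ∈ X.F \ d.Rt, X.Mono f u c.α

/-- Enough exits on every side that can have an entry. -/
def Rz (c : Sd V) (d : Dd V) : Prop := ∀ k, c.P k → ∀ κ, κ = c.α ∨ κ = c.β →
  2 ≤ (d.Rt.filter fun m => c.σ m = κ).card ∧ 3 ≤ k ∨
    4 ≤ ((X.F \ d.Rt).filter fun m => c.σ m = κ).card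

/-- The data after a passage with exit `e` at the member `u`. -/
structure Stp (c : Sd V) (d d' : Dd V) (u e : V) : Prop where
  own : (e, u) ∈ d'.pn
  new : ∀ p ∈ d'.pn, p ∈ d.pn ∨ p.2 = u ∧ (c.S → p.1 = e)

/-- `e` is an exit at the member `u` for the hole `z`: the data follow, or the level drops. -/
structure Exz (c : Sd V) (d : Dd V) (f : V → ℕ) (z u e : V) : Prop where
  mv : u ∈ c.Mv
  sl : e ∈ X.sl u
  col : f e = c.σ u
  nx : (∃ d', X.Wz D c d' (shift D f z e) ∧ Stp c d d' u e) ∨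
    X.Vz D (shift D f z e) ∧ ¬ X.Gl D (shift D f z e) c.l

variable {X D} {f : V → ℕ}

theorem lev_le {i : ℕ} (h : ¬ X.Gl D f (i + 1)) : X.lev D f ≤ i := Nat.find_le h

theorem gl_of_le {i : ℕ} (h : i ≤ X.lev D f) : X.Gl D f i := by
  rcases i with _ | i
  · trivial
  · exact not_not.1 (Nat.find_min (X.ex_lev D f) h)

theorem lev_spec : ¬ X.Gl D f (X.lev D f + 1) := Nat.find_spec (X.ex_lev D f)

theorem mem_Na {y : ℕ} {w : V} : w ∈ X.Na f y ↔ w ∈ X.F ∧ ¬ X.See f w y := mem_filter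

theorem mem_Nb {y z : ℕ} {w : V} :
    w ∈ X.Nb f y z ↔ w ∈ X.F ∧ ¬ (X.See f w y ∧ X.See f w z) := mem_filter

theorem mem_Nm {y : ℕ} {w : V} : w ∈ X.Nm f y ↔ w ∈ X.F ∧ ¬ X.Mono f w y := mem_filter

theorem mem_Ns {Rt : Finset V} {y : ℕ} {w : V} :
    w ∈ X.Ns Rt f y ↔ w ∈ X.F \ Rt ∧ ¬ X.See f w y := mem_filter

namespace OKz

variable (ok : X.OKz) {w z : V} {a b y : ℕ}
include ok

theorem slot3 {a b c : V} (hw : w ∈ X.F) (ha : a ∈ X.sl w) (hb : b ∈ X.sl w) (hc : c ∈ X.sl w)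
    (ab : a ≠ b) : c = a ∨ c = b := by
  rcases L1.three (ok.two w hw) ha hb hc with e | e | e
  exacts [absurd e ab, .inl e.symm, .inr e.symm]

theorem see3 (hw : w ∈ X.F) (ha : X.See f w a) (hb : X.See f w b) (hc : X.See f w y)
    (ab : a ≠ b) : y = a ∨ y = b := by
  obtain ⟨x, hx, rfl⟩ := ha
  obtain ⟨x', hy, rfl⟩ := hb
  obtain ⟨z, hz, rfl⟩ := hc
  exact (ok.slot3 hw hx hy hz fun e => ab (e ▸ rfl)).imp (congrArg f) (congrArg f)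

theorem mono1 (hw : w ∈ X.F) (ha : X.Mono f w a) (hb : X.See f w b) : b = a := by
  obtain ⟨x, hx, y, hy, xy, e1, e2⟩ := ha
  obtain ⟨z, hz, rfl⟩ := hb
  rcases ok.slot3 hw hx hy hz xy with e | e <;> rw [e] <;> assumption

theorem hl1 (hw : w ∈ X.F) (h : X.Hl D f w) (ha : a < D) (hb : b < D) (sa : X.See f w a)
    (sb : X.See f w b) : a = b := by
  obtain ⟨z, hz, l⟩ := h
  by_contra n
  rcases ok.see3 hw sa sb ⟨z, hz, rfl⟩ n with e | e <;> omega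

theorem hl_mono (hw : w ∈ X.F) (h : X.Hl D f w) (ha : a < D) : ¬ X.Mono f w a := fun m => by
  obtain ⟨z, hz, l⟩ := h
  have := ok.mono1 hw m ⟨z, hz, rfl⟩
  omega

end OKz

end Fr

end Pool.Agent.Lib.MP_12eaff_co.Acc2
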