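import Pool.Agent.Lib.MP_12eaff_co.G.Base
import Pool.Agent.Lib.MP_12eaff_co.G.Cnt
import Pool.Agent.Lib.MP_12eaff_co.Red
import Pool.Agent.Lib.MP_12eaff_co.Sel4

set_option autoImplicit false
set_option linter.unusedSectionVars false

namespace Pool.Agent.Lib.MP_12eaff_co.Acc2

open Finset Pool.Agent.Lib.MP_12eaff_co.BK PV Tr
open scoped Classical

section

variable {V : Type} [Fintype V] {G : SimpleGraph V} {D : ℕ} {C : Cz G D}

/-- In every state the hole and one more real vertex form a frame. -/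
theorem Cz.hc2 (t : C.St) {y : PV V} (hy : y ∉ PD C.U C.P) :
    HC (PG G C.U C.P) D ⟨{inl t.z, y}, univ.filter fun m => D < C.rules.col t m⟩ (inl t.z)
      (C.rules.col t) := by
  have re : ∀ m ∈ ({inl t.z, y} : Finset (PV V)), m ∉ PD C.U C.P := fun m k => by
    rcases mem_insert.1 k with rfl | k
    exacts [fun j => t.one.real (PD_l.1 j), mem_singleton.1 k ▸ hy]
  refine ⟨C.rules.col_prop t, (C.rules.col_l t t.one.real).trans t.one.hole, mem_insert_self _ _,
    fun m k j => ?_, fun m k n => ?_, fun m k => (mem_filter.1 k).2, fun g a b c => ?_⟩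
  · obtain ⟨x, rfl, p⟩ := PD_real (re m k)
    have := (mem_filter.1 j).2
    have := C.rules.f_le t p
    rw [C.rules.col_l t p] at *
    omega
  · have l : ¬ D < C.rules.col t m := fun j => k (mem_filter.2 ⟨mem_univ _, j⟩)
    rcases m with x | x
    · have p : x ∉ C.U ∪ C.P := fun j => l (C.rules.col_big t j)
      rw [C.rules.col_l t p]
      exact t.one.full x p fun j => n (congrArg inl j)
    · have := C.rules.port_ne t x.1 x.2
      rw [C.rules.col_r] at l ⊢
      omega
  · have two : ∀ A : Finset V, (∀ x ∈ A, x ∉ C.U ∪ C.P ∧ g (inl x) ≠ C.rules.f t x) →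
        A.card ≤ 2 := fun A hA =>
      (card_le_card_of_injOn (t := ({inl t.z, y} : Finset (PV V))) inl (fun x k => by_contra
        fun j => (hA x k).2 ((a _ j).trans (C.rules.col_l t (hA x k).1)))
        inl_injective.injOn).trans card_le_two
    refine C.rel t (fun x => g (inl x)) (fun x p => ?_)
      (fun x x' p q r => c _ _ ((PG_real p q).2 r))
      (fun x m p q r => (c (inl x) (inr (x, m)) ⟨rfl, p, q, r⟩).trans_eq
        (a _ fun j => re _ j PD_r))
      (fun κ _ => two _ fun x k => ?_) fun κ _ => two _ fun x k => ?_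
    · by_cases k : inl x ∈ ({inl t.z, y} : Finset (PV V))
      · exact b _ k
      · rw [a _ k, C.rules.col_l t p]
        exact t.one.full x p fun j => k (j ▸ mem_insert_self _ _)
    · obtain ⟨_, k1, _, k2, k3⟩ := mem_filter.1 k
      exact ⟨k1, fun j => k3 (j ▸ k2)⟩
    · obtain ⟨_, k1, _, k2, k3⟩ := mem_filter.1 k
      exact ⟨k1, fun j => k3 (j.trans k2)⟩

namespace Cz.Tw

variable {T : Tr (PG G C.U C.P) D} {st : PV V → C.St} {L : Finset (PV V)}

/-- A passage to a vertex that is not visited is a virtual event. -/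
theorem vev_of (h : Tw C T st L) {v : PV V} (hv : v ∈ T.R) {e w : V} {t : C.St} {K : Finset V}
    (p : (st v).Pass e t K w) (n : inl e ∉ T.R) : T.Vev (inl e) := by
  have er := (C.mem_sl.1 p.he).2
  have eD : inl e ∉ T.Dm := fun j => er (PD_l.1 (h.dm ▸ j))
  have vz := (h.z v hv).1
  obtain ⟨r1, hr⟩ : ∃ r1, ∀ b ∈ (C.fr K).sl w, b ≠ e → b = r1 := by
    have c : ((C.fr K).sl w).card ≤ 2 := (C.ok K p.hK).two w ((t.inv K p.hK).subF p.hw)
    have : Nonempty V := ⟨e⟩
    have c' : (((C.fr K).sl w).erase e).card ≤ 1 := by rw [card_erase_of_mem p.he]; omega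
    obtain ⟨r, k⟩ := card_le_one_iff_subset_singleton.1 c'
    exact ⟨r, fun b x y => mem_singleton.1 (k (mem_erase.2 ⟨y, x⟩))⟩
  refine ⟨v, inl r1, C.rules.col t, ⟨hv, n, eD, fun r j => p.np ?_, fun m k => ?_, fun m k => ?_,
    fun y k => ?_⟩, fun a => p.na ?_⟩
  · rw [h.f_par hv r, j, h.f_base hv er n]
  · obtain ⟨b, rfl, q⟩ := PD_real (h.dm ▸ k)
    rw [C.rules.col_l t q]
    change t.f b = _
    rw [p.f]
    nth_rewrite 4 [vz]
    simp only [shift, Function.update_apply, inl.injEq, h.col_l hv er, h.col_l hv q]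
  · rcases m with a | ⟨b, u⟩
    · have q := PD_l.1 (h.dm ▸ k)
      exact .inl (by rw [(h.z v hv).2.2, PRules.col, PRules.col, if_pos q, if_pos q])
    have ad : ∀ x, b = x → ∀ a, (PG G C.U C.P).Adj a (inr (b, u)) → a = inl x := fun x i a j => by
      rcases a with a | a
      exacts [congrArg inl (j.1.trans i), j.elim]
    by_cases be : b = e
    · exact .inr (.inr fun a j => .inl (ad e be a j))
    rw [h.col_r hv, C.rules.col_r]
    change t.port b u = (st v).port b u ∨ D < t.port b u ∨ _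
    rw [St.port_test (p.z ▸ be)]
    rcases t.pin_cases b u with i | ⟨l, uU, i, i', _⟩
    · exact .inr (.inl (by omega))
    have hK := (C.hU u uU).1
    have same : (b, u) ∈ ((st v).dat (C.cq u)).pn → t.pin b u = (st v).port b u := fun j =>
      i'.trans (St.port_pn hK j).symm
    by_cases c : C.cq u = K
    · have i2 := ((t.inv _ hK).p1 _ _ i).2.1
      rw [c] at i i2 same
      rcases p.step.new _ i with j | j
      · exact .inl (same (p.root ▸ j))
      · exact .inr (.inr fun a x => .inr (ad r1 (hr b (j.1 ▸ i2) be) a x))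
    · exact .inl (same (p.off _ c ▸ i))
  · have := Cz.hc2 t (h.dm ▸ k)
    rwa [p.z] at this
  · rw [vz] at a
    exact a.1

theorem vev (h : Tw C T st L) : Tw C T st (L.filter T.Vev) :=
  ⟨h.a, h.dm, h.s2, h.r, h.z, h.nx, h.px, fun v hv e t K w p => or_iff_not_imp_left.2 fun n =>
    mem_filter.2 ⟨(h.clo v hv e t K w p).resolve_left n, h.vev_of hv p n⟩,
    fun e k => h.late e (mem_filter.1 k).1⟩

end Cz.Tw

end

variable {D : ℕ} {V : Type} [Fintype V]

theorem no_MC4 (u : UThm4 D 4) (hD : 8 ≤ D) (sel : Sel11 D) (G : SimpleGraph V) : ¬ MC G D :=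
  fun h => by
    obtain ⟨C, s0, r, hU⟩ := base_z h hD sel
    obtain ⟨ι, mb, cl, E, pf, hcl, hp⟩ := u V G C.U C.P h hU
    obtain ⟨T, st, q, t, o⟩ := Cz.exists_tw h.deg s0 r mb cl hcl E pf
    exact absurd (hp T q t.a t.dm t.s2 o t.notix) (not_lt.2 t.vev.total)

theorem sel11 (hD : 15 ≤ D) : Sel11 D := fun _ _ _ h => by
  obtain ⟨F, a, b⟩ := sel4m h (by omega)
  exact ⟨F, fun K p q => le_trans (by omega) (a K p q), b⟩

theorem bk_from4 (u : UThm4 D 4) (hD : 15 ≤ D) (G : SimpleGraph V) [DecidableRel G.Adj]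
    (h : D + 1 ≤ G.maxDegree) (hc : G.CliqueFree G.maxDegree) :
    G.Colorable (G.maxDegree - 1) :=
  St.final (s := 0) (w := D) (by omega) (St.of_MC (no_MC4 u (by omega) (sel11 hD))) G h hc

end Pool.Agent.Lib.MP_12eaff_co.Acc2
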