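import Pool.Agent.Lib.MP_12eaff_co.G.M1

set_option autoImplicit false
set_option linter.unusedSectionVars false

namespace Pool.Agent.Lib.MP_12eaff_co.Acc2

open Finset
open scoped Classical

namespace Fr

variable {V : Type} [Fintype V] {X : Fr V} {D : ℕ} {c : Sd V} {d : Dd V} {f g : V → ℕ}
  {m u z w q : V} {y y' k a : ℕ}

theorem see_keep (s : X.See f w a) (l : a < D) (hz : D ≤ f z) (n : u ∉ X.sl w) :
    X.See (shift D f z u) w a := by
  obtain ⟨x, hx, e⟩ := s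
  exact ⟨x, hx, (shift_o (fun j => by subst j; omega) fun j : x = u => n (j ▸ hx)).trans e⟩

theorem mono_keep (s : X.Mono f w a) (l : a < D) (hz : D ≤ f z) (n : u ∉ X.sl w) :
    X.Mono (shift D f z u) w a := by
  obtain ⟨x, hx, x', hx', xx, e, e'⟩ := s
  exact ⟨x, hx, x', hx', xx,
    (shift_o (fun j => by subst j; omega) fun j : x = u => n (j ▸ hx)).trans e,
    (shift_o (fun j => by subst j; omega) fun j : x' = u => n (j ▸ hx')).trans e'⟩

theorem hl_shift (k : u ∈ X.sl w) : X.Hl D (shift D f z u) w := ⟨u, k, (shift_e z u).ge⟩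

/-- The guards only look at the members that are not rooted, and seeing less keeps them. -/
theorem Sft.mono (h : X.Sft D c d f) {d' : Dd V} (r0 : c.l = 0 → d.Rt = ∅) (e : d'.Rt = d.Rt)
    (s : ∀ w ∈ X.F \ d.Rt, ∀ y < D, X.See g w y → X.See f w y)
    (mo : c.l = 3 → ∀ w ∈ X.F \ d.Rt, X.Mono g w c.α → X.Mono f w c.α) : X.Sft D c d' g := by
  refine ⟨fun l t => h.s0 l ?_, fun l y a b b' => (h.s1 l y a b b').trans (card_le_card
    fun w k => ?_), fun l => ?_⟩
  · rw [r0 l, sdiff_empty] at s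
    refine t.imp (fun ⟨y, a, t⟩ => ⟨y, a, (card_le_card fun w k => ?_).trans t⟩)
      fun ⟨y, a, y', b, n, t⟩ => ⟨y, a, y', b, n, (card_le_card fun w k => ?_).trans t⟩
    · exact mem_Na.2 ⟨(mem_Na.1 k).1, fun j => (mem_Na.1 k).2 (s w (mem_Na.1 k).1 y a j)⟩
    · exact mem_Nb.2 ⟨(mem_Nb.1 k).1, fun j => (mem_Nb.1 k).2
        ⟨s w (mem_Nb.1 k).1 y a j.1, s w (mem_Nb.1 k).1 y' b j.2⟩⟩
  · rw [e]
    exact mem_Ns.2 ⟨(mem_Ns.1 k).1, fun j => (mem_Ns.1 k).2 (s w (mem_Ns.1 k).1 y a j)⟩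
  · obtain ⟨u, u1, u2⟩ := h.s2 l
    exact ⟨u, e ▸ u1, fun j => u2 (mo l u u1 j)⟩

namespace Wz

variable (h : X.Wz D c d f)
include h

theorem rt0 (l : c.l = 0) : d.Rt = ∅ := eq_empty_of_forall_notMem fun _ k => h.l0 k l

/-- A hole at a slot of a member that can be pinned is pinned. -/
theorem hole (ok : X.OKz) (fz : X.Fz c d f) (hz : D ≤ f z) (hm : m ∈ c.Mv) (hs : z ∈ X.sl m) :
    (z, m) ∈ d.pn := by
  have mF := h.subF hm
  have l0 : c.l ≠ 0 := fun e => notMem_empty m (h.r0 e ▸ hm)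
  have la := h.la l0
  rcases h.cases.resolve_left l0 with s | ⟨k, p⟩
  · have mR : m ∈ d.Rt := by_contra fun n => by
      rcases id s with l | l | l
      exacts [n (h.mv (.inl l) ▸ hm), n (h.mv (.inr l) ▸ hm),
        ok.hl_mono mF ⟨z, hs, hz⟩ la.1 (fz.mo l m (mem_sdiff.2 ⟨mF, n⟩))]
    obtain ⟨-, e, -, a, b, b'⟩ := h.S s
    rw [e, mem_insert, mem_singleton] at mR
    rcases mR with rfl | rfl
    · exact a z hs
    by_cases l : c.l = 1
    · exact b' l z hs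
    obtain ⟨x, x1, x2⟩ := fz.w (by unfold Sd.S at s; omega)
    have xz : x ≠ z := fun j => by subst j; omega
    rcases b with b | ⟨t, b⟩
    · have : 1 < (X.sl d.w).card := one_lt_card.2 ⟨x, x1, z, hs, xz⟩
      omega
    · obtain ⟨-, t1, t2⟩ := h.p1 _ _ b
      rcases ok.slot3 mF x1 hs t1 xz with rfl | rfl
      exacts [absurd (x2.trans (h.sgS s _).symm) t2, b]
  · refine (h.P k p).2.2.1 m (by_contra fun n => ?_) z hs
    have := fz.see l0 m (mem_sdiff.2 ⟨mF, n⟩)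
    exact (h.P k p).1 (ok.hl1 mF ⟨z, hs, hz⟩ la.1 la.2 this.1 this.2)

theorem soft_off (n : ∀ w ∈ X.F \ d.Rt, z ∉ X.sl w) (y : ℕ) :
    X.Sft D c d (Function.update f z y) :=
  h.soft.mono h.rt0 rfl (fun w k _ _ => (see_off (n w k) _ _).1)
    fun _ w k => (mono_off (n w k) _ _).1

theorem move (fz : X.Fz c d f) (hz : D ≤ f z)
    (np : ∀ m, (z, m) ∈ d.pn → c.σ m ≠ f u) (s : X.Sft D c d (Function.update f z (f u))) :
    X.Wz D c d (shift D f z u) := by
  refine ⟨h.l7, h.la, h.sub, h.subF, fun a m k => ⟨(h.p1 a m k).1, (h.p1 a m k).2.1, ?_⟩, h.sg,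
    h.r0, h.mv, h.mvF, h.S, h.P, fun l w k => ?_, fun l w k => ?_,
    s.mono h.rt0 rfl (fun w _ y a t => (see_up t).resolve_left (by omega)) fun l w _ t =>
      (mono_up t).resolve_right fun j => by have := h.la (by omega); omega⟩
  · have := h.pin_lt k
    by_cases au : a = u
    · rw [au, shift_e]; omega
    by_cases az : a = z
    · subst az
      rw [shift_z au]; exact (np m k).symm
    · rw [shift_o az au]; exact h.av a m k
  · by_cases n : u ∈ X.sl w
    · exact .inr (hl_shift n)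
    · exact .inl ⟨see_keep (fz.see l w k).1 (h.la l).1 hz n, see_keep (fz.see l w k).2 (h.la l).2 hz n⟩
  · by_cases n : u ∈ X.sl w
    · exact .inr (hl_shift n)
    · exact .inl (mono_keep (fz.mo l w k) (h.la (by omega)).1 hz n)

theorem bad0 (ok : X.OKz) (l : c.l = 0) (hq : q ∈ X.F) (hs : z ∈ X.sl q)
    (n : ¬ X.Sft D c d (Function.update f z y)) : ¬ X.See f q y ∧ (X.Na f y).card ≤ 3 ∨
      ∃ j < D, y ≠ j ∧ X.See f q j ∧ (X.Nb f y j).card ≤ 6 := by
  have s := h.soft.s0 l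
  have o : ∀ w ∈ X.F, w ≠ q → ∀ t, X.See (Function.update f z y) w t → X.See f w t :=
    fun w a b t => (see_off (fun j => b (ok.dis w a q hq z j hs)) _ _).1
  have t : X.Gl D (Function.update f z y) 1 := by_contra fun j =>
    n ⟨fun _ => j, fun j => absurd l j, fun j => by omega⟩
  rcases t with ⟨t, a, b⟩ | ⟨t, a, t', a', ne, b⟩
  · have i : ∀ w ∈ X.Na f t, w ≠ q → w ∈ X.Na (Function.update f z y) t := fun w k j =>
      mem_Na.2 ⟨(mem_Na.1 k).1, fun r => (mem_Na.1 k).2 (o w (mem_Na.1 k).1 j t r)⟩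
    have := card_ins i
    obtain ⟨q1, q2⟩ : ¬ X.See f q t ∧ X.See (Function.update f z y) q t := by
      by_contra j
      refine s (.inl ⟨t, a, (card_le_card fun w k => ?_).trans b⟩)
      by_cases e : w = q
      · subst e
        exact mem_Na.2 ⟨hq, fun r => j ⟨(mem_Na.1 k).2, r⟩⟩
      · exact i w k e
    obtain rfl := (see_up q2).resolve_right q1
    exact .inl ⟨q1, by omega⟩
  · have i : ∀ w ∈ X.Nb f t t', w ≠ q → w ∈ X.Nb (Function.update f z y) t t' := fun w k j =>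
      mem_Nb.2 ⟨(mem_Nb.1 k).1, fun r => (mem_Nb.1 k).2
        ⟨o w (mem_Nb.1 k).1 j t r.1, o w (mem_Nb.1 k).1 j t' r.2⟩⟩
    have := card_ins i
    obtain ⟨q1, q2, q3⟩ : ¬ (X.See f q t ∧ X.See f q t') ∧ X.See (Function.update f z y) q t ∧
        X.See (Function.update f z y) q t' := by
      by_contra j
      refine s (.inr ⟨t, a, t', a', ne, (card_le_card fun w k => ?_).trans b⟩)
      by_cases e : w = q
      · subst e
        exact mem_Nb.2 ⟨hq, fun r => j ⟨(mem_Nb.1 k).2, r⟩⟩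
      · exact i w k e
    rcases see_up q2 with e1 | r2 <;> rcases see_up q3 with e | r3
    · exact absurd (e1.trans e.symm) ne
    · exact .inr ⟨t', a', e1 ▸ ne, r3, by rw [← e1]; omega⟩
    · exact .inr ⟨t, a, e ▸ ne.symm, r2, by rw [← e, Nb_comm]; omega⟩
    · exact absurd ⟨r2, r3⟩ q1

theorem bad1 (ok : X.OKz) (l : c.l ≠ 0) (hq : q ∈ X.F) (hs : z ∈ X.sl q)
    (n : ¬ X.Sft D c d (Function.update f z y)) : y ≠ c.α ∧ (X.Ns d.Rt f y).card ≤ 4 ∨
      y = c.α ∧ ∀ u ∈ X.F \ d.Rt, u ≠ q → X.Mono f u c.α := by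
  have o : ∀ w ∈ X.F \ d.Rt, w ≠ q → z ∉ X.sl w := fun w a b j =>
    b (ok.dis w (mem_sdiff.1 a).1 q hq z j hs)
  by_contra j
  rw [not_or] at j
  refine n ⟨fun j => absurd j l, fun _ t a b b' => ?_, fun l3 => ?_⟩
  · have i : ∀ w ∈ X.Ns d.Rt f t, w ≠ q → w ∈ X.Ns d.Rt (Function.update f z y) t := fun w k j =>
      mem_Ns.2 ⟨(mem_Ns.1 k).1, fun r => (mem_Ns.1 k).2 ((see_off (o w (mem_Ns.1 k).1 j) _ _).1 r)⟩
    by_cases e : t = y
    · subst e
      have := card_ins i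
      have : ¬ (X.Ns d.Rt f t).card ≤ 4 := fun r => j.1 ⟨b, r⟩
      omega
    · exact (h.soft.s1 l t a b b').trans (card_le_card fun w k => mem_Ns.2 ⟨(mem_Ns.1 k).1,
        fun r => (mem_Ns.1 k).2 ((see_up r).resolve_left e)⟩)
  · by_cases e : y = c.α
    · obtain ⟨u, u1, u2, u3⟩ : ∃ u ∈ X.F \ d.Rt, u ≠ q ∧ ¬ X.Mono f u c.α := by
        by_contra! r
        exact j.2 ⟨e, r⟩
      exact ⟨u, u1, fun r => u3 ((mono_off (o u u1 u2) _ _).1 r)⟩
    · obtain ⟨u, u1, u2⟩ := h.soft.s2 l3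
      exact ⟨u, u1, fun r => u2 ((mono_up r).resolve_right fun t => e t.1.symm)⟩

/-- At most one colour at the hole breaks the guards. -/
theorem bad_one (ok : X.OKz) (fz : X.Fz c d f) (hz : D ≤ f z) (hy : y < D) (hy' : y' < D)
    (n : ¬ X.Sft D c d (Function.update f z y)) (n' : ¬ X.Sft D c d (Function.update f z y')) :
    y = y' := by
  obtain ⟨q, q1, hs⟩ : ∃ q ∈ X.F \ d.Rt, z ∈ X.sl q := by
    by_contra! j
    exact n (h.soft_off j y)
  have hq := (mem_sdiff.1 q1).1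
  have cF := ok.card
  have hl : X.Hl D f q := ⟨z, hs, hz⟩
  by_contra ne
  by_cases l : c.l = 0
  · have s := h.soft.s0 l
    have ab : ∀ {y y' j : ℕ}, y ≠ y' → ¬ X.See f q y → (X.Na f y).card ≤ 3 → y' ≠ j →
        X.See f q j → (X.Nb f y' j).card ≤ 6 → False := fun {y y' j} ne a b e a' b' => by
      have := card_le_card (s := X.F \ X.Nb f y' j) (t := X.Na f y) fun w k => by
        obtain ⟨k1, k2⟩ := mem_sdiff.1 k
        have := not_not.1 fun r => k2 (mem_Nb.2 ⟨k1, r⟩)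
        refine mem_Na.2 ⟨k1, fun r => (ok.see3 k1 this.1 this.2 r e).elim ne fun t => a (t ▸ a')⟩
      have := le_card_sdiff (X.Nb f y' j) X.F
      omega
    rcases h.bad0 ok l hq hs n with ⟨a, b⟩ | ⟨j, lj, e, a, b⟩ <;>
      rcases h.bad0 ok l hq hs n' with ⟨a', b'⟩ | ⟨j', lj', e', a', b'⟩
    · refine s (.inr ⟨y, hy, y', hy', ne, ?_⟩)
      have := card_le_card (s := X.Nb f y y') (t := X.Na f y ∪ X.Na f y') fun w k => by
        rw [mem_union, mem_Na, mem_Na]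
        have := mem_Nb.1 k
        tauto
      have := card_union_add_card_inter (X.Na f y) (X.Na f y')
      have := card_pos.2 ⟨q, mem_inter.2 ⟨mem_Na.2 ⟨hq, a⟩, mem_Na.2 ⟨hq, a'⟩⟩⟩
      omega
    · exact ab ne a b e' a' b'
    · exact ab (Ne.symm ne) a' b' e a b
    · obtain rfl := ok.hl1 hq hl lj lj' a a'
      have bo : ∀ t, ∀ w ∈ X.F \ X.Nb f t j, X.See f w t ∧ X.See f w j := fun t w k =>
        not_not.1 fun r => (mem_sdiff.1 k).2 (mem_Nb.2 ⟨(mem_sdiff.1 k).1, r⟩)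
      have sb : ∀ t, X.F \ X.Nb f t j ⊆ X.F \ X.Na f j := fun t w k =>
        mem_sdiff.2 ⟨(mem_sdiff.1 k).1, fun r => (mem_Na.1 r).2 (bo t w k).2⟩
      have a1 := card_le_card (union_subset (sb y) (sb y'))
      rw [card_union_of_disjoint (disjoint_left.2 fun w k k' =>
        (ok.see3 (mem_sdiff.1 k).1 (bo y w k).1 (bo y' w k').1 (bo y w k).2 ne).elim e.symm
          e'.symm)] at a1
      have := le_card_sdiff (X.Nb f y j) X.F
      have := le_card_sdiff (X.Nb f y' j) X.F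
      have : (X.F \ X.Na f j).card + (X.Na f j).card = X.F.card :=
        card_sdiff_add_card_eq_card (filter_subset _ _)
      exact s (.inl ⟨j, lj, by omega⟩)
  have s : c.S := (h.cases.resolve_left l).resolve_right fun ⟨k, p⟩ => (h.P k p).1
    (ok.hl1 hq hl (h.la l).1 (h.la l).2 (fz.see l q q1).1 (fz.see l q q1).2)
  have := h.cardF
  have := h.cS s
  have am : ∀ {y : ℕ}, y ≠ c.α → (X.Ns d.Rt f y).card ≤ 4 →
      (∀ u ∈ X.F \ d.Rt, u ≠ q → X.Mono f u c.α) → False := fun {y} a b r => by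
    have := card_ins (s := X.F \ d.Rt) (t := X.Ns d.Rt f y) (q := q) fun w k j =>
      mem_Ns.2 ⟨k, fun t => a (ok.mono1 (mem_sdiff.1 k).1 (r w k j) t)⟩
    omega
  rcases h.bad1 ok l hq hs n with ⟨a, b⟩ | ⟨a, b⟩ <;>
    rcases h.bad1 ok l hq hs n' with ⟨a', b'⟩ | ⟨a', b'⟩
  · have := card_le_card (s := X.F \ d.Rt) (t := X.Ns d.Rt f y ∪ X.Ns d.Rt f y') fun w k => by
      rw [mem_union, mem_Ns, mem_Ns]
      by_contra! j
      exact (ok.see3 (mem_sdiff.1 k).1 (j.1 k) (j.2 k) (fz.see l w k).1 ne).elim a.symm a'.symm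
    have := card_union_le (X.Ns d.Rt f y) (X.Ns d.Rt f y')
    omega
  exacts [am a b b', am a' b' b, ne (a.trans a'.symm)]

end Wz

end Fr

end Pool.Agent.Lib.MP_12eaff_co.Acc2
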