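import Pool.Agent.Lib.MP_12eaff_co.G.M2

set_option autoImplicit false
set_option linter.unusedSectionVars false

namespace Pool.Agent.Lib.MP_12eaff_co.Acc2

open Finset
open scoped Classical

namespace Fr

variable {V : Type} [Fintype V] {X : Fr V} {D : ℕ} {c : Sd V} {d : Dd V} {f g : V → ℕ}
  {m u z w q e o : V} {y y' k a b : ℕ}

theorem valS (ho : o ∈ X.Na g a) (m2 : 2 ≤ (X.Nm g a).card)
    (gd : ∀ y < D, y ≠ a → 2 ≤ (X.Na g y).card) : X.Vz D g := by
  refine ⟨fun y l => ?_, fun y l y' l' n => ?_, fun y l => ?_⟩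
  · by_cases e : y = a
    exacts [e ▸ card_pos.2 ⟨o, ho⟩, one_le_two.trans (gd y l e)]
  · by_cases e : y = a
    · exact (gd y' l' (e ▸ n.symm)).trans (card_le_card (Nb_comm (X := X) (f := g) y' y ▸ Na_Nb _ _))
    · exact (gd y l e).trans (card_le_card (Na_Nb _ _))
  · by_cases e : y = a
    exacts [e ▸ m2, (gd y l e).trans (card_le_card (Na_Nm _))]

theorem valP (ok : X.OKz) (ab : a ≠ b) (n2 : 2 ≤ (X.Nb g a b).card) {B : Finset V} (hB : B ⊆ X.F)
    (c2 : 2 ≤ B.card) (s : ∀ u ∈ B, X.See g u a ∧ X.See g u b) (na : (X.Na g a).Nonempty)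
    (nb : (X.Na g b).Nonempty) : X.Vz D g := by
  have o : ∀ y, y ≠ a → y ≠ b → B ⊆ X.Na g y := fun y i j u k =>
    mem_Na.2 ⟨hB k, fun r => (ok.see3 (hB k) (s u k).1 (s u k).2 r ab).elim i j⟩
  refine ⟨fun y _ => ?_, fun y _ y' _ n => ?_, fun y _ => c2.trans (card_le_card fun u k =>
    mem_Nm.2 ⟨hB k, fun r => ab ((ok.mono1 (hB k) r (s u k).1).trans
      (ok.mono1 (hB k) r (s u k).2).symm)⟩)⟩
  · by_cases i : y = a
    · exact i ▸ card_pos.2 na
    by_cases j : y = b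
    exacts [j ▸ card_pos.2 nb, one_le_two.trans (c2.trans (card_le_card (o y i j)))]
  · by_cases i : y ≠ a ∧ y ≠ b
    · exact c2.trans (card_le_card ((o y i.1 i.2).trans (Na_Nb _ _)))
    by_cases j : y' ≠ a ∧ y' ≠ b
    · exact c2.trans (card_le_card ((o y' j.1 j.2).trans
        (Nb_comm (X := X) (f := g) y' y ▸ Na_Nb _ _)))
    obtain ⟨rfl, rfl⟩ | ⟨rfl, rfl⟩ : y = a ∧ y' = b ∨ y = b ∧ y' = a := by omega
    exacts [n2, Nb_comm (X := X) (f := g) y' y ▸ n2]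

theorem see_sh (s : X.See (shift D f z e) w a) (l : a < D) (n : z ∉ X.sl w) : X.See f w a :=
  (see_off n _ _).1 ((see_up s).resolve_left l.ne)

theorem mono_sh (s : X.Mono (shift D f z e) w a) (l : a < D) (n : z ∉ X.sl w) : X.Mono f w a :=
  (mono_off n _ _).1 ((mono_up s).resolve_right fun j => l.ne j.1)

namespace Wz

variable (h : X.Wz D c d f)
include h

theorem pn_le {Z : V → Finset V} (hZ : ∀ z m, (z, m) ∈ d.pn → z ∈ Z m) :
    d.pn.card ≤ ∑ m ∈ d.Rt, (Z m).card :=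
  (card_le_card (t := d.Rt.biUnion fun m => (Z m).image fun z => (z, m)) fun p k =>
    mem_biUnion.2 ⟨p.2, (h.p1 p.1 p.2 k).1, mem_image.2 ⟨p.1, hZ p.1 p.2 k, rfl⟩⟩).trans
    (card_biUnion_le.trans (sum_le_sum fun _ _ => card_image_le))

theorem pn_two (ok : X.OKz) : d.pn.card ≤ d.Rt.card * 2 :=
  (h.pn_le (Z := X.sl) fun z m k => (h.p1 z m k).2.1).trans
    (sum_le_card_nsmul _ _ 2 fun m k => ok.two m (h.rF k))

theorem off (ok : X.OKz) (hp : (z, q) ∈ d.pn) (hm : m ∈ X.F) (n : m ≠ q) : z ∉ X.sl m :=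
  fun j => n (ok.dis m hm q (h.rF (h.p1 z q hp).1) z j (h.p1 z q hp).2.1)

theorem offF (ok : X.OKz) (hp : (z, q) ∈ d.pn) : ∀ m ∈ X.F \ d.Rt, z ∉ X.sl m := fun m k =>
  h.off ok hp (mem_sdiff.1 k).1 fun j => (mem_sdiff.1 k).2 (j ▸ (h.p1 z q hp).1)

theorem keep (ok : X.OKz) (hp : (z, q) ∈ d.pn) {x : V} (k : (x, m) ∈ d.pn) (n : x ≠ z ∨ m ≠ q) :
    shift D f z e x ≠ c.σ m := by
  have := h.pin_lt k
  by_cases j : x = e
  · rw [j, shift_e]; omega
  · rw [shift_o (n.elim id fun n t => h.off ok hp (h.rF (h.p1 x m k).1) n (t ▸ (h.p1 x m k).2.1)) j]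
    exact h.av x m k

theorem entA (ok : X.OKz) (fz : X.Fz c d f) (s : c.S) (l : c.l ≠ 1) (hz : D ≤ f z)
    (hp : (z, d.h) ∈ d.pn) : d.pn.card ≤ 3 ∧ ∃ e, X.Exz D c d f z d.w e := by
  obtain ⟨e, e1, e2⟩ := fz.w (by unfold Sd.S at s; omega)
  obtain ⟨ba, hR, hw, fu, hf, -⟩ := h.S s
  have wF := h.rF (h.wR s)
  have hF := h.rF (h.hR s)
  have la := (h.la s.ne).1
  have ne : (e, d.w) ∉ d.pn := fun j => h.av _ _ j (e2.trans (h.sgS s _).symm)
  have oe : ∀ u ∈ X.F \ d.Rt, e ∉ X.sl u := fun u k j =>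
    (mem_sdiff.1 k).2 (ok.dis _ wF u (mem_sdiff.1 k).1 e e1 j ▸ h.wR s)
  constructor
  · refine (h.pn_le (Z := fun m => (X.sl m).erase e) fun x m k => mem_erase.2
      ⟨fun j => ne ?_, (h.p1 x m k).2.1⟩).trans ?_
    · rwa [← ok.dis m (h.rF (h.p1 x m k).1) _ wF x (h.p1 x m k).2.1 (j ▸ e1), ← j]
    · rw [hR, sum_pair hw, card_erase_of_mem e1]
      have := ok.two _ wF
      have := ok.two _ hF
      have := card_erase_le (s := X.sl d.h) (a := e)
      omega
  refine ⟨e, h.sub (h.wR s), e1, e2.trans (h.sgS s _).symm, .inl ⟨⟨d.Rt, d.w, d.h,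
    insert (e, d.w) (d.pn.erase (z, d.h))⟩, ⟨h.l7, h.la, h.sub, h.subF, fun x m k => ?_, h.sg,
    h.r0, h.mv, h.mvF, fun _ => ⟨ba, hR.trans (pair_comm _ _), hw.symm, fun x k => ?_, ?_,
      fun j => absurd j l⟩, fun k p => absurd s (by have := p.rng; unfold Sd.S; omega),
    fun j u k => .inl ⟨see_keep (fz.see j u k).1 la hz (oe u k),
      see_keep (fz.see j u k).2 (ba ▸ la) hz (oe u k)⟩,
    fun j u k => .inl (mono_keep (fz.mo j u k) la hz (oe u k)),
    h.soft.mono h.rt0 rfl (fun u k y ly t => see_sh t ly (h.offF ok hp u k))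
      fun _ u k t => mono_sh t la (h.offF ok hp u k)⟩,
    mem_insert_self _ _, fun p k => (mem_insert.1 k).symm.imp mem_of_mem_erase
      fun j => by simp [j]⟩⟩
  · rcases mem_insert.1 k with j | j
    · obtain ⟨rfl, rfl⟩ := Prod.mk.inj j
      exact ⟨h.wR s, e1, by rw [shift_e, h.sgS s]; omega⟩
    · obtain ⟨j1, j2⟩ := mem_erase.1 j
      exact ⟨(h.p1 x m j2).1, (h.p1 x m j2).2.1, h.keep ok hp j2 (by
        by_contra! t
        exact j1 (Prod.ext t.1 t.2))⟩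
  · by_cases j : x = e
    · exact j ▸ mem_insert_self _ _
    refine mem_insert_of_mem (mem_erase.2 ⟨fun t => hw (Prod.mk.inj t).2.symm, ?_⟩)
    rcases hf with t | ⟨t, t1⟩
    · have : 1 < (X.sl d.w).card := one_lt_card.2 ⟨x, k, e, e1, j⟩
      omega
    · rcases ok.slot3 wF k e1 (h.p1 _ _ t1).2.1 j with rfl | rfl
      exacts [t1, absurd t1 ne]
  · refine or_iff_not_imp_left.2 fun n => ?_
    obtain ⟨x, x1, x2⟩ := exists_mem_ne (show 1 < (X.sl d.h).card by dsimp only at n; omega) z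
    exact ⟨x, mem_insert_of_mem (mem_erase.2 ⟨fun t => x2 (Prod.mk.inj t).1, fu x x1⟩)⟩

theorem entM (ok : X.OKz) (fz : X.Fz c d f) (l : c.l = 4) (hz : D ≤ f z)
    (hp : (z, d.w) ∈ d.pn) (hu : u ∈ X.F \ d.Rt) : ∃ e, X.Exz D c d f z u e := by
  have s : c.S := .inr (.inr l)
  obtain ⟨x, x1, x2⟩ := fz.w (.inr l)
  obtain ⟨e, e1, e2⟩ := (fz.mo l u hu).see
  obtain ⟨ba, hR, hw, fu, -, -⟩ := h.S s
  obtain ⟨uF, uR⟩ := mem_sdiff.1 hu
  have wF := h.rF (h.wR s)
  have hF := h.rF (h.hR s)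
  have la := (h.la s.ne).1
  have mF := h.mvF (by omega)
  have uh : d.h ≠ u := fun j => uR (j ▸ h.hR s)
  have mo : ∀ v ∈ X.F \ {d.h, u}, X.Mono (shift D f z e) v c.α := fun v k => by
    obtain ⟨vF, k⟩ := mem_sdiff.1 k
    rw [mem_insert, mem_singleton, not_or] at k
    have oe : e ∉ X.sl v := fun j => k.2 (ok.dis v vF u uF e j e1)
    by_cases j : v = d.w
    · subst j
      have zs := (h.p1 _ _ hp).2.1
      have xz : x ≠ z := fun j => by subst j; omega
      exact ⟨x, x1, z, zs, xz, (shift_o xz fun j : x = e => oe (j ▸ x1)).trans x2,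
        (shift_z fun j : z = e => oe (j ▸ zs)).trans e2⟩
    · exact mono_keep (fz.mo l v (mem_sdiff.2 ⟨vF, by simp [hR, k.1, j]⟩)) la hz oe
  have RF : ({d.h, u} : Finset V) ⊆ X.F := insert_subset hF (singleton_subset_iff.2 uF)
  refine ⟨e, mF ▸ uF, e1, e2.trans (h.sgS s _).symm, .inl ⟨⟨{d.h, u}, d.h, u,
    insert (e, u) (d.pn.filter fun p => p.2 = d.h)⟩, ⟨h.l7, h.la, mF ▸ RF, h.subF,
    fun a m k => ?_, h.sg, h.r0, fun j => by omega, h.mvF, fun _ => ⟨ba, rfl, uh, fun a k =>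
      mem_insert_of_mem (mem_filter.2 ⟨fu a k, rfl⟩), .inr ⟨e, mem_insert_self _ _⟩,
      fun j => by omega⟩, fun k p => absurd l p.rng.2.2.2.2.2,
    fun _ v k => .inl ⟨(mo v k).see, ba ▸ (mo v k).see⟩, fun _ v k => .inl (mo v k),
    fun j => by omega, fun _ y ly n _ => ?_, fun j => by omega⟩,
    mem_insert_self _ _, fun p k => (mem_insert.1 k).symm.imp (fun j => (mem_filter.1 j).1)
      fun j => by simp [j]⟩⟩
  · rcases mem_insert.1 k with j | j
    · obtain ⟨rfl, rfl⟩ := Prod.mk.inj j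
      exact ⟨by simp, e1, by rw [shift_e, h.sgS s]; omega⟩
    · obtain ⟨j1, j2⟩ := mem_filter.1 j
      obtain rfl : m = d.h := j2
      exact ⟨by simp, (h.p1 _ _ j1).2.1, h.keep ok hp j1 (.inr hw)⟩
  · have := card_le_card (s := X.F \ {d.h, u}) (t := X.Ns {d.h, u} (shift D f z e) y) fun v i =>
      mem_Ns.2 ⟨i, fun r => n (ok.mono1 (mem_sdiff.1 i).1 (mo v i) r)⟩
    have := card_sdiff_add_card_eq_card RF
    have := ok.card
    rw [card_pair uh] at *
    dsimp only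
    omega

theorem entP (ok : X.OKz) (fz : X.Fz c d f) (p : c.P k) (k4 : k ≤ 4) (hz : D ≤ f z)
    (hp : (z, q) ∈ d.pn) (hu : u ∈ X.F \ d.Rt) (su : c.σ u = c.σ q) :
    ∃ e, X.Exz D c d f z u e := by
  obtain ⟨ab, cR, fu, cT⟩ := h.P k p
  obtain ⟨k2, -, l0, l1, l3, l4⟩ := p.rng
  obtain ⟨la, lb⟩ := h.la l0
  obtain ⟨uF, uR⟩ := mem_sdiff.1 hu
  obtain ⟨qR, zq, -⟩ := h.p1 z q hp
  have qF := h.rF qR
  have mF := h.mvF (by omega)
  have cF := h.cardF
  have cn := ok.card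
  obtain ⟨κ', nκ, iκ, bo⟩ : ∃ κ', c.σ q ≠ κ' ∧ (κ' = c.α ∨ κ' = c.β) ∧ ∀ g m,
      (X.See g m (c.σ q) ∧ X.See g m κ' ↔ X.See g m c.α ∧ X.See g m c.β) := by
    rcases h.sg q with e | e <;> rw [e]
    exacts [⟨_, ab, .inr rfl, fun _ _ => Iff.rfl⟩, ⟨_, ab.symm, .inl rfl, fun _ _ => and_comm⟩]
  have lκ : κ' < D := by omega
  have lq := h.pin_lt hp
  obtain ⟨⟨e, e1, e2⟩, e', e3, e4⟩ := (bo f u).2 (fz.see l0 u hu)
  have ee : e ≠ e' := fun j => nκ (by rw [← e2, j, e4])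
  have zu := h.offF ok hp u hu
  have oe : ∀ v ∈ X.F, v ≠ u → e ∉ X.sl v := fun v k n j => n (ok.dis v k u uF e j e1)
  have qu : q ≠ u := fun j => uR (j ▸ qR)
  have au : ∀ x ∈ X.sl u, shift D f z e x ≠ c.σ u := fun x k => by
    rcases ok.slot3 uF e1 e3 k ee with rfl | rfl
    · rw [shift_e, su]; omega
    · rw [shift_o (fun j : x = z => zu (j ▸ k)) ee.symm, e4, su]; exact nκ.symm
  have kb : ∀ v ∈ X.F \ d.Rt, v ≠ u → X.See (shift D f z e) v c.α ∧ X.See (shift D f z e) v c.β :=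
    fun v k n => ⟨see_keep (fz.see l0 v k).1 la hz (oe v (mem_sdiff.1 k).1 n),
      see_keep (fz.see l0 v k).2 lb hz (oe v (mem_sdiff.1 k).1 n)⟩
  have nm : ∀ m ∈ d.Rt, m ≠ q → ¬ X.See (shift D f z e) m (c.σ m) := fun m k n =>
    full_not (fu m k) fun x j => h.keep ok hp j (.inr n)
  refine ⟨e, mF ▸ uF, e1, e2.trans su.symm, ?_⟩
  by_cases sq : X.See f q κ'
  · have RF : insert u (d.Rt.erase q) ⊆ X.F := insert_subset uF ((erase_subset _ _).trans h.rF)
    have bt : ∀ v ∈ X.F \ insert u (d.Rt.erase q),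
        X.See (shift D f z e) v c.α ∧ X.See (shift D f z e) v c.β := fun v k => by
      obtain ⟨vF, k⟩ := mem_sdiff.1 k
      rw [mem_insert, not_or, mem_erase] at k
      by_cases j : v = q
      · subst j
        exact (bo _ _).1 ⟨⟨z, zq, (shift_z fun j : z = e => zu (j ▸ e1)).trans e2⟩,
          see_keep sq lκ hz (oe v vF k.1)⟩
      · exact kb v (mem_sdiff.2 ⟨vF, fun t => k.2 ⟨j, t⟩⟩) k.1
    have cR' := card_swap qR uR
    refine .inl ⟨⟨insert u (d.Rt.erase q), d.h, d.w, (d.pn.filter fun p => p.2 ≠ q) ∪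
      (X.sl u).image fun x => (x, u)⟩, ⟨h.l7, h.la, mF ▸ RF, h.subF, fun x m k => ?_, h.sg, h.r0,
      fun j => by omega, h.mvF, fun s => by unfold Sd.S at s; omega,
      fun k' p' => ⟨ab, cR'.trans (h.P k' p').2.1, fun m j x i => ?_, fun κ i => ?_⟩,
      fun _ v j => .inl (bt v j), fun j => by omega, fun j => by omega, fun _ y ly n n' => ?_,
      fun j => by omega⟩, mem_union_right _ (mem_image.2 ⟨e, e1, rfl⟩),
      fun p j => (mem_union.1 j).imp (fun t => (mem_filter.1 t).1) fun t => ?_⟩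
    · rcases mem_union.1 k with j | j
      · obtain ⟨j1, j2⟩ := mem_filter.1 j
        exact ⟨mem_insert_of_mem (mem_erase.2 ⟨j2, (h.p1 x m j1).1⟩), (h.p1 x m j1).2.1,
          h.keep ok hp j1 (.inr j2)⟩
      · obtain ⟨x', j1, j2⟩ := mem_image.1 j
        obtain ⟨rfl, rfl⟩ := Prod.mk.inj j2
        exact ⟨mem_insert_self _ _, j1, au _ j1⟩
    · rcases mem_insert.1 j with rfl | j
      · exact mem_union_right _ (mem_image.2 ⟨x, i, rfl⟩)
      · exact mem_union_left _ (mem_filter.2 ⟨fu m (mem_erase.1 j).2 x i, (mem_erase.1 j).1⟩)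
    · refine ((h.P k' p').2.2.2 κ i).trans ?_
      by_cases j : c.σ q = κ
      · rw [← card_swap (mem_filter.2 ⟨qR, j⟩ : q ∈ d.Rt.filter fun m => c.σ m = κ)
          fun t => uR (mem_filter.1 t).1]
        refine card_le_card fun m t => ?_
        rcases mem_insert.1 t with rfl | t
        · exact mem_filter.2 ⟨mem_insert_self _ _, su.trans j⟩
        · obtain ⟨t1, t2⟩ := mem_erase.1 t
          exact mem_filter.2 ⟨mem_insert_of_mem (mem_erase.2 ⟨t1, (mem_filter.1 t2).1⟩),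
            (mem_filter.1 t2).2⟩
      · exact card_le_card fun m t => mem_filter.2 ⟨mem_insert_of_mem (mem_erase.2
          ⟨fun r => j (r ▸ (mem_filter.1 t).2), (mem_filter.1 t).1⟩), (mem_filter.1 t).2⟩
    · have := card_le_card (s := X.F \ insert u (d.Rt.erase q))
        (t := X.Ns (insert u (d.Rt.erase q)) (shift D f z e) y) fun v i => mem_Ns.2 ⟨i, fun r =>
          (ok.see3 (mem_sdiff.1 i).1 (bt v i).1 (bt v i).2 r ab).elim n n'⟩
      have := card_sdiff_add_card_eq_card RF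
      dsimp only
      omega
    · obtain ⟨x, _, rfl⟩ := mem_image.1 t
      exact ⟨rfl, fun s => by unfold Sd.S at s; omega⟩
  · have RF : insert u d.Rt ⊆ X.F := insert_subset uF h.rF
    have cI := card_insert_of_notMem uR
    have cI' := card_sdiff_add_card_eq_card RF
    have nq : ¬ X.See (shift D f z e) q κ' := fun t =>
      (see_up ((see_up t).resolve_left lκ.ne)).elim (fun j => nκ (e2 ▸ j.symm)) sq
    have nu : ¬ X.See (shift D f z e) u (c.σ q) := fun ⟨x, i, j⟩ => au x i (j.trans su.symm)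
    have nb : ∀ m ∈ insert u d.Rt,
        ¬ (X.See (shift D f z e) m c.α ∧ X.See (shift D f z e) m c.β) := fun m j t => by
      rcases mem_insert.1 j with rfl | j
      · exact nu ((bo _ _).2 t).1
      by_cases i : m = q
      · exact nq (i ▸ ((bo _ _).2 t).2)
      · have := nm m j i
        rcases h.sg m with r | r <;> rw [r] at this
        exacts [this t.1, this t.2]
    have bt : ∀ v ∈ X.F \ insert u d.Rt,
        X.See (shift D f z e) v c.α ∧ X.See (shift D f z e) v c.β := fun v k => by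
      obtain ⟨vF, k⟩ := mem_sdiff.1 k
      rw [mem_insert, not_or] at k
      exact kb v (mem_sdiff.2 ⟨vF, k.2⟩) k.1
    have cp := fun y ly y' ly' n => (core_P ok ab RF (by omega) nb (fun v j => .inl (bt v j))
      (D := D) (y := y) (y' := y') ly ly' n).1
    have n1 : (X.Na (shift D f z e) (c.σ q)).Nonempty := ⟨u, mem_Na.2 ⟨uF, nu⟩⟩
    have n2 : (X.Na (shift D f z e) κ').Nonempty := ⟨q, mem_Na.2 ⟨qF, nq⟩⟩
    have n3 : ∀ y, y = c.α ∨ y = c.β → (X.Na (shift D f z e) y).Nonempty := fun y j => by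
      obtain rfl | rfl : y = c.σ q ∨ y = κ' := by have := h.sg q; omega
      exacts [n1, n2]
    refine .inr ⟨valP ok ab (by have := cp _ la _ lb ab; omega) sdiff_subset (by omega) bt
      (n3 _ (.inl rfl)) (n3 _ (.inr rfl)), fun t => ?_⟩
    have : ¬ X.GN D (shift D f z e) k := fun ⟨y, a, y', b, n, t⟩ => by
      have := cp y a y' b n; omega
    rcases p with ⟨l, r⟩ | ⟨l, r⟩ | ⟨l, r⟩ | ⟨l, r⟩ <;> rw [l] at t
    · omega
    all_goals exact this (r ▸ t)

/-- An entry at the root data has exits. -/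
theorem ent (ok : X.OKz) (fz : X.Fz c d f) (r : X.Rz c d) (hz : D ≤ f z) (hp : (z, q) ∈ d.pn)
    (n : ¬ X.Vz D (Function.update f z (c.σ q))) :
    (d.pn.card ≤ 8 ∧ ∃ M : Finset V, 4 ≤ M.card ∧
      ∀ u ∈ M, c.σ u = c.σ q ∧ ∃ e, X.Exz D c d f z u e) ∨
    (c.S ∧ q = d.h ∧ d.pn.card ≤ 3 ∧ ∃ u e, c.σ u = c.σ q ∧ X.Exz D c d f z u e) := by
  obtain ⟨qR, zq, -⟩ := h.p1 z q hp
  have l0 := h.l0 qR
  have sf := h.soft_off (h.offF ok hp) (c.σ q)
  have cF := h.cardF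
  have cn := ok.card
  have p2 := h.pn_two ok
  have up : ∀ m ∈ X.F, m ≠ q → ∀ y, ¬ X.See f m y → m ∈ X.Na (Function.update f z (c.σ q)) y :=
    fun m k j y t => mem_Na.2 ⟨k, fun i => t ((see_off (h.off ok hp k j) _ _).1 i)⟩
  rcases h.cases.resolve_left l0 with s | ⟨k, p⟩
  · obtain ⟨ba, hR, hw, -⟩ := h.S s
    have cS := h.cS s
    have gd : ∀ y < D, y ≠ c.α → 2 ≤ (X.Na (Function.update f z (c.σ q)) y).card := fun y l j =>
      le_trans (by norm_num) ((sf.s1 l0 y l j (ba ▸ j)).trans (card_le_card (Ns_Na _ _)))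
    by_cases l : c.l = 1
    · obtain ⟨o, o1, o2⟩ := exists_mem_ne (show 1 < d.Rt.card by omega) q
      have a := up o (h.rF o1) o2 _ (mem_Na.1 (h.pairS s l o1)).2
      refine absurd (valS a (cS ▸ card_le_card fun m j => mem_Nm.2 ⟨h.rF j, fun t =>
        (mem_Na.1 (h.pairS s l j)).2 (L1.mono_upd_see t)⟩) gd) n
    rw [hR, mem_insert, mem_singleton] at qR
    rcases qR with rfl | rfl
    · obtain ⟨a, e, b⟩ := h.entA ok fz s l hz hp
      exact .inr ⟨s, rfl, a, _, e, (h.sgS s _).trans (h.sgS s _).symm, b⟩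
    by_cases l4 : c.l = 4
    · exact .inl ⟨by omega, X.F \ d.Rt, by omega, fun u j =>
        ⟨(h.sgS s _).trans (h.sgS s _).symm, h.entM ok fz l4 hz hp j⟩⟩
    obtain ⟨u, u1, u2⟩ := sf.s2 (by unfold Sd.S at s; omega)
    have a := up d.h (h.rF (h.hR s)) hw _ (h.h_not s fun z => h.av z _)
    refine absurd (valS a (one_lt_card.2 ⟨_, Na_Nm _ a, u, mem_Nm.2 ⟨(mem_sdiff.1 u1).1, u2⟩,
      fun j => (mem_sdiff.1 u1).2 (j ▸ h.hR s)⟩) gd) n
  obtain ⟨ab, cR, fu, cT⟩ := h.P k p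
  have rg := p.rng
  by_cases t : 2 ≤ (d.Rt.filter fun m => c.σ m = c.σ q).card ∧ 3 ≤ k
  · have nm : ∀ m ∈ d.Rt, m ≠ q → m ∈ X.Na (Function.update f z (c.σ q)) (c.σ m) := fun m j i =>
      up m (h.rF j) i _ (full_not (fu m j) fun x => h.av x m)
    have n3 : ∀ y, y = c.α ∨ y = c.β → (X.Na (Function.update f z (c.σ q)) y).Nonempty :=
      fun y j => by
        by_cases i : y = c.σ q
        · obtain ⟨o, o1, o2⟩ := exists_mem_ne t.1 q
          have := nm o (mem_filter.1 o1).1 o2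
          rw [(mem_filter.1 o1).2] at this
          exact ⟨o, by rw [i]; exact this⟩
        · obtain ⟨o, o1⟩ := card_pos.1 (show 0 < (d.Rt.filter fun m => c.σ m = y).card by
            have := cT y j
            split_ifs at this <;> omega)
          obtain ⟨o2, rfl⟩ := mem_filter.1 o1
          exact ⟨o, nm o o2 fun r => i (r ▸ rfl)⟩
    have bt : ∀ u ∈ X.F \ d.Rt, X.See (Function.update f z (c.σ q)) u c.α ∧
        X.See (Function.update f z (c.σ q)) u c.β := fun u j => by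
      rw [see_off (h.offF ok hp u j), see_off (h.offF ok hp u j)]
      exact fz.see l0 u j
    refine absurd (valP ok ab (le_trans ?_ (card_le_card (s := d.Rt.erase q) fun m j => ?_))
      sdiff_subset (by omega) bt (n3 _ (.inl rfl)) (n3 _ (.inr rfl))) n
    · rw [card_erase_of_mem qR]; omega
    · have := mem_Na.1 (nm m (mem_erase.1 j).2 (mem_erase.1 j).1)
      refine mem_Nb.2 ⟨this.1, fun i => this.2 ?_⟩
      rcases h.sg m with e | e <;> rw [e]
      exacts [i.1, i.2]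
  · have k4 : k ≤ 4 := by_contra fun j => t ⟨by
      have := cT _ (h.sg q)
      rwa [if_pos (by omega)] at this, by omega⟩
    exact .inl ⟨by omega, _, (r k p _ (h.sg q)).resolve_left t, fun u j =>
      ⟨(mem_filter.1 j).2, h.entP ok fz p k4 hz hp (mem_filter.1 j).1 (mem_filter.1 j).2⟩⟩

end Wz

end Fr

end Pool.Agent.Lib.MP_12eaff_co.Acc2
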